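import Pool.Agent.MP_961719_gt.Main

set_option autoImplicit false

/-!
# MP_961719_gt, Q1 when the square of the Lindelöf space is Lindelöf

Contained in `Pool/Agent/Results/MP_961719_gt/Counterexamples.lean`.

The proof is in `Pool/Agent/MP_961719_gt/`; see `BoundTwoPowAlephOne.lean` for an outline. When
`Y × Y` is Lindelöf, chains of length `ω₁` can be used, because the functions
`y - y ∘ ρ`, for the retractions `ρ` of the chain, come from points of `Y × Y`.
-/

namespace Pool.Agent.MP_961719_gt.Variants.SquareLindelof

universe u

/-- Every homogeneous compact set of continuous real functions on a space whose square is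
Lindelöf, with the topology of pointwise convergence, has at most continuum many elements. -/
theorem square_lindelof (Y : Type u) [TopologicalSpace Y] [LindelofSpace (Y × Y)] (X : Set (Y → ℝ))
    (hX : ∀ f ∈ X, Continuous f) (hc : IsCompact X)
    (hom : ∀ x y : X, ∃ h : X ≃ₜ X, h x = y) :
    Cardinal.mk X ≤ Cardinal.continuum :=
  Pool.MP_961719_gt.mk_le_continuum Y X hX hc hom

end Pool.Agent.MP_961719_gt.Variants.SquareLindelof
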